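import Pool.Agent.H133.ZM.Stm2

set_option autoImplicit false

/-!
Project ZM2 (helper133): `S_Epair2`, a pairing with at most one element of `N` in each pair.
-/

namespace Pool.Agent.H229.ZM

open Finset Pool.Agent.H133.ZM

theorem t_Epair2 : S_Epair2 := by
  intro V _ _ N y k hV hy hN
  have h1 : ((univ.erase y) \ N).card + N.card = 2 * k := by
    have h2 : N ⊆ univ.erase y := fun x hx => mem_erase.mpr ⟨fun h => hy (h ▸ hx), mem_univ x⟩
    rw [card_sdiff_add_card_eq_card h2, card_erase_of_mem (mem_univ y), card_univ, hV]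
    omega
  obtain ⟨T, hT, hTc⟩ := exists_subset_card_eq (s := (univ.erase y) \ N) (n := k) (by omega)
  have hTe : T ⊆ univ.erase y := fun x hx => (mem_sdiff.mp (hT hx)).1
  have hSc : ((univ.erase y) \ T).card = k := by
    have h3 := card_sdiff_add_card_eq_card hTe
    rw [card_erase_of_mem (mem_univ y), card_univ, hV] at h3
    omega
  let eT := (T.equivFinOfCardEq hTc).symm
  let eS := (((univ.erase y) \ T).equivFinOfCardEq hSc).symm
  have hTm : ∀ i, (eT i : V) ∈ T := fun i => (eT i).2
  have hSm : ∀ i, (eS i : V) ∈ (univ.erase y) \ T := fun i => (eS i).2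
  refine ⟨fun x => if x.2 then (eT x.1 : V) else (eS x.1 : V), ?_, ?_, ?_⟩
  · rintro ⟨i, a⟩ ⟨j, b⟩ h
    cases a <;> cases b
    · simp only [Bool.false_eq_true, if_false] at h
      rw [eS.injective (Subtype.ext h)]
    · simp only [Bool.false_eq_true, if_false, if_true] at h
      exact absurd (h ▸ hTm j) (mem_sdiff.mp (hSm i)).2
    · simp only [Bool.false_eq_true, if_false, if_true] at h
      exact absurd (h ▸ hTm i) (mem_sdiff.mp (hSm j)).2
    · simp only [if_true] at h
      rw [eT.injective (Subtype.ext h)]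
  · rintro ⟨i, a⟩ h
    cases a
    · simp only [Bool.false_eq_true, if_false] at h
      exact (mem_erase.mp (mem_sdiff.mp (hSm i)).1).1 h
    · simp only [if_true] at h
      exact (mem_erase.mp (hTe (hTm i))).1 h
  · intro i
    simp only [if_true]
    exact (mem_sdiff.mp (hT (hTm i))).2

end Pool.Agent.H229.ZM
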